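import Pool.Agent.W495.FM.HomDefs

/-!
# Unramified cohomology of degree three of smooth projective schemes over a finite field: definitions
-/

set_option autoImplicit false

namespace Pool.Agent.X300.NR

open Pool.Agent.W495.FM

variable {Ω V : Type} [Field Ω]

/-- The groups `H X = H^3_nr(X, ℚ/ℤ(2))` are the unramified cohomology groups of the smooth
projective schemes `X` (those with the property `S`): they are finite if the conjecture of Tate and
Beilinson holds for `X`, that is, if the regulators for `X` are isomorphisms onto the Frobenius
invariants and the eigenvalue one is semisimple (Kahn, Colliot-Thélène and Kahn, Geisser: then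
`H^4_et(X, ℤ(2))` is finitely generated, and `H^3_nr(X, ℚ/ℤ(2))` is a torsion quotient of it). -/
def IsUnramified (T : Homology Ω V) (S : V → Prop) (H : V → Type) : Prop :=
  ∀ X, S X → TB T X → Finite (H X)

end Pool.Agent.X300.NR
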